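import Pool.Agent.H2.ST.Targets

/-!
Symplectic torus actions on affine space (MP_51eb24_ag): row FAC of the board `st2_modules`,
factors of homogeneous elements are homogeneous.
-/

set_option autoImplicit false

namespace Pool.Agent.H43.ST

open Pool.Agent.H2.ST MvPolynomial

section

variable {k A Γ : Type} [Field k] [CommRing A] [Algebra k A] [AddCommGroup Γ]
  {W : Γ → Submodule k A}

/-- the component of a sum -/
theorem cmp_sum_apply (h : Gr W) {ι : Type} (s : Finset ι) (F : ι → A) (x : Γ) :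
    cmp h (∑ i ∈ s, F i) x = ∑ i ∈ s, cmp h (F i) x := by
  rw [map_sum, Finsupp.finsetSum_apply]

/-- components of a product -/
theorem cmp_mul_apply (h : Gr W) (f g : A) (x : Γ) :
    cmp h (f * g) x = ∑ c ∈ (cmp h g).support, cmp h f (x - c) * cmp h g c := by
  have h1 : f * g = ∑ c ∈ (cmp h g).support, f * cmp h g c := by
    conv_lhs => rw [← cmp_sum h g]
    unfold Finsupp.sum
    rw [Finset.mul_sum]
  rw [h1, cmp_sum_apply]
  refine Finset.sum_congr rfl fun c _ => ?_
  have h2 := cmp_mul_of_mem h (cmp_mem h g c) f (x - c)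
  rwa [sub_add_cancel] at h2

theorem cmp_uniqueAdd [IsDomain A] (h : Gr W) (f g : A) (b0 c0 : Γ)
    (hb : b0 ∈ (cmp h f).support) (hc : c0 ∈ (cmp h g).support)
    (hu : UniqueAdd (cmp h f).support (cmp h g).support b0 c0) :
    cmp h (f * g) (b0 + c0) ≠ 0 := by
  classical
  rw [cmp_mul_apply, Finset.sum_eq_single c0]
  · rw [add_sub_cancel_right]
    exact mul_ne_zero (Finsupp.mem_support_iff.1 hb) (Finsupp.mem_support_iff.1 hc)
  · intro c hcT hne
    by_contra h0
    have h1 : b0 + c0 - c ∈ (cmp h f).support :=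
      Finsupp.mem_support_iff.2 (left_ne_zero_of_mul h0)
    have h2 := hu h1 hcT (sub_add_cancel _ _)
    exact hne h2.2
  · intro h0; exact absurd hc h0

end

theorem pf_FAC : T_FAC := by
  intro k A Γ _ _ _ _ _ _ W h a f g hm hne
  classical
  have hf : f ≠ 0 := left_ne_zero_of_mul hne
  have hg : g ≠ 0 := right_ne_zero_of_mul hne
  have hS : (cmp h f).support.Nonempty := by
    rw [Finsupp.support_nonempty_iff]
    intro h0
    apply hf
    rw [← cmp_sum h f, h0, Finsupp.sum_zero_index]
  have hT : (cmp h g).support.Nonempty := by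
    rw [Finsupp.support_nonempty_iff]
    intro h0
    apply hg
    rw [← cmp_sum h g, h0, Finsupp.sum_zero_index]
  have hsum : ∀ b0 c0 : Γ, b0 ∈ (cmp h f).support → c0 ∈ (cmp h g).support →
      UniqueAdd (cmp h f).support (cmp h g).support b0 c0 → b0 + c0 = a := by
    intro b0 c0 hb hc hu
    have h1 := cmp_uniqueAdd h f g b0 c0 hb hc hu
    rw [cmp_of_mem h hm, Finsupp.single_apply] at h1
    by_contra h2
    rw [if_neg (fun h3 => h2 h3.symm)] at h1
    exact h1 rfl
  have hcard : ¬ (1 < (cmp h f).support.card * (cmp h g).support.card) := by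
    intro h1
    obtain ⟨p1, hp1, p2, hp2, hne12, hu1, hu2⟩ := TwoUniqueSums.uniqueAdd_of_one_lt_card h1
    rw [Finset.mem_product] at hp1 hp2
    have e1 := hsum _ _ hp1.1 hp1.2 hu1
    have e2 := hsum _ _ hp2.1 hp2.2 hu2
    have e3 := hu1 hp2.1 hp2.2 (e2.trans e1.symm)
    exact hne12 (Prod.ext e3.1 e3.2).symm
  have hS1 := hS.card_pos
  have hT1 := hT.card_pos
  have hSc : (cmp h f).support.card ≤ 1 := by nlinarith
  have hTc : (cmp h g).support.card ≤ 1 := by nlinarith
  have key : ∀ u : A, (cmp h u).support.Nonempty → (cmp h u).support.card ≤ 1 →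
      ∃ b, u ∈ W b := by
    intro u hn hc
    obtain ⟨b, hb⟩ := Finset.card_eq_one.1 (le_antisymm hc hn.card_pos)
    refine ⟨b, mem_of_cmp h fun x hx => ?_⟩
    apply Finsupp.notMem_support_iff.1
    rw [hb, Finset.mem_singleton]
    exact hx
  obtain ⟨b, hb⟩ := key f hS hSc
  obtain ⟨c, hc⟩ := key g hT hTc
  exact ⟨b, c, hb, hc, wt_uniq h (h.mul b c f g hb hc) hm hne⟩

end Pool.Agent.H43.ST
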