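import Pool.Agent.H43.ST.FAC

/-!
Symplectic torus actions on affine space (MP_51eb24_ag): row STB of the board `st2_modules`,
the powers of the maximal ideal of the origin are homogeneous.
-/

set_option autoImplicit false

namespace Pool.Agent.H43.ST

open Pool.Agent.H2.ST MvPolynomial

theorem cc_cmp {k : Type} [Field k] {m : ℕ} {Γ : Type} [AddCommGroup Γ]
    {W : Γ → Submodule k (Pol k m)} (h : PGr W) (f : Pol k m) (hf : constantCoeff f = 0) (a : Γ) :
    constantCoeff (cmp h.toGr f a) = 0 := by
  classical
  have hne : ∀ b, b ≠ 0 → constantCoeff (cmp h.toGr f b) = 0 := fun b hb =>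
    h.van b hb _ (cmp_mem h.toGr f b)
  by_cases ha : a = 0
  · rw [ha]
    have h1 : constantCoeff f = constantCoeff (cmp h.toGr f 0) := by
      conv_lhs => rw [← cmp_sum h.toGr f]
      unfold Finsupp.sum
      rw [map_sum, Finset.sum_eq_single 0]
      · intro b _ hb; exact hne b hb
      · intro h0
        rw [Finsupp.notMem_support_iff.1 h0, map_zero]
    rw [← h1, hf]
  · exact hne a ha

theorem pf_STB : T_STB := by
  intro k _ m Γ _ W h N
  classical
  induction N with
  | zero =>
    intro f _ a
    rw [pow_zero, Ideal.one_eq_top]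
    exact Submodule.mem_top
  | succ N ih =>
    intro f hf
    rw [pow_succ] at hf
    refine Submodule.mul_induction_on (C := fun f => ∀ a, cmp h.toGr f a ∈
      (RingHom.ker (constantCoeff : Pol k m →+* k)) ^ (N + 1)) hf ?_ ?_
    · intro p hp q hq a
      rw [cmp_mul_apply, pow_succ]
      refine Ideal.sum_mem _ fun c _ => ?_
      refine Ideal.mul_mem_mul (ih p hp _) ?_
      rw [RingHom.mem_ker]
      exact cc_cmp h q (RingHom.mem_ker.1 hq) c
    · intro p q hp hq a
      rw [map_add, Finsupp.add_apply]
      exact Ideal.add_mem _ (hp a) (hq a)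

end Pool.Agent.H43.ST
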